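import Mathlib

namespace Pool.Agent.Results.MP_7af562_mp.NotLUEquivalent

open Matrix

/-- Labels of the Pauli matrices. -/
inductive Pauli
  | I | X | Y | Z
  deriving DecidableEq

/-- The Pauli matrices. -/
def Pauli.mat : Pauli → Matrix (Fin 2) (Fin 2) ℂ
  | .I => 1
  | .X => !![0, 1; 1, 0]
  | .Y => !![0, -Complex.I; Complex.I, 0]
  | .Z => !![1, 0; 0, -1]

/-- The product operator `a₁ ⊗ ⋯ ⊗ a_n` on `(ℂ²)^{⊗ n}`, in the product basis, indexed by
bit strings `x : Fin n → Fin 2`. -/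
def prodOp {n : ℕ} (a : Fin n → Matrix (Fin 2) (Fin 2) ℂ) :
    Matrix (Fin n → Fin 2) (Fin n → Fin 2) ℂ :=
  Matrix.of fun x y => ∏ i, a i (x i) (y i)

/-- The operator of a Pauli string. -/
def str {n : ℕ} (s : Fin n → Pauli) : Matrix (Fin n → Fin 2) (Fin n → Fin 2) ℂ :=
  prodOp fun i => (s i).mat

/-- The codespace `Q(S)` of the stabilizer group generated by the Pauli strings `g j`. -/
def codespace {n m : ℕ} (g : Fin m → Fin n → Pauli) : Set ((Fin n → Fin 2) → ℂ) :=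
  {ψ | ∀ j, str (g j) *ᵥ ψ = ψ}

/-- The operator `(U₁ ⊗ ⋯ ⊗ U_n) P_π`, where `P_π` permutes the qubits. -/
def localMap {n : ℕ} (U : Fin n → Matrix (Fin 2) (Fin 2) ℂ) (π : Equiv.Perm (Fin n))
    (ψ : (Fin n → Fin 2) → ℂ) : (Fin n → Fin 2) → ℂ :=
  prodOp U *ᵥ fun x => ψ (x ∘ π)

/-- Local unitary equivalence, up to a permutation of the qubits. -/
def LUEquivalent {n : ℕ} (Q Q' : Set ((Fin n → Fin 2) → ℂ)) : Prop :=
  ∃ (U : Fin n → Matrix (Fin 2) (Fin 2) ℂ) (π : Equiv.Perm (Fin n)),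
    (∀ i, U i ∈ Matrix.unitaryGroup (Fin 2) ℂ) ∧ localMap U π '' Q = Q'

open Pauli in
/-- Generators of `S_A`. -/
def SA : Fin 3 → Fin 5 → Pauli := ![![Z, Z, Z, Z, I], ![X, X, I, I, X], ![I, I, X, X, X]]

open Pauli in
/-- Generators of `S_B`. -/
def SB : Fin 3 → Fin 5 → Pauli := ![![Z, Z, I, Z, X], ![X, I, Z, X, I], ![I, X, X, Y, I]]

open Pauli in
/-- Generators of `S_+`. -/
def Splus : Fin 3 → Fin 6 → Pauli :=
  ![![X, X, I, I, X, X], ![I, I, X, X, X, X], ![Z, Z, Z, Z, I, X]]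

open Pauli in
/-- Generators of `S_-`. -/
def Sminus : Fin 3 → Fin 6 → Pauli :=
  ![![X, X, Z, X, I, I], ![Z, Z, X, Y, I, I], ![I, Z, Z, Z, X, X]]

section general

variable {n : ℕ}

lemma prodOp_mul (a b : Fin n → Matrix (Fin 2) (Fin 2) ℂ) :
    prodOp a * prodOp b = prodOp (fun i => a i * b i) := by
  ext x y
  simp only [prodOp, Matrix.mul_apply, Matrix.of_apply]
  rw [Finset.prod_univ_sum]
  simp [Finset.prod_mul_distrib]

lemma prodOp_one : (prodOp (fun _ => 1) : Matrix (Fin n → Fin 2) (Fin n → Fin 2) ℂ) = 1 := by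
  ext x y
  simp only [prodOp, Matrix.of_apply]
  by_cases h : x = y
  · subst h; simp
  · rw [Matrix.one_apply_ne h]
    obtain ⟨i, hi⟩ := Function.ne_iff.mp h
    exact Finset.prod_eq_zero (Finset.mem_univ i) (Matrix.one_apply_ne hi)

lemma prodOp_conjTranspose (a : Fin n → Matrix (Fin 2) (Fin 2) ℂ) :
    (prodOp a)ᴴ = prodOp (fun i => (a i)ᴴ) := by
  ext x y
  simp only [prodOp, Matrix.of_apply, Matrix.conjTranspose_apply, star_prod]

lemma unitary_prod {U : Fin n → Matrix (Fin 2) (Fin 2) ℂ}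
    (hU : ∀ i, U i ∈ Matrix.unitaryGroup (Fin 2) ℂ) : (prodOp U)ᴴ * prodOp U = 1 := by
  rw [prodOp_conjTranspose, prodOp_mul, ← prodOp_one]
  congr 1
  funext i
  exact (Matrix.mem_unitaryGroup_iff'.mp (hU i))

/-- The bijection `x ↦ x ∘ π`. -/
def pe (π : Equiv.Perm (Fin n)) : (Fin n → Fin 2) ≃ (Fin n → Fin 2) :=
  π.symm.arrowCongr (Equiv.refl (Fin 2))

lemma pe_apply (π : Equiv.Perm (Fin n)) (x : Fin n → Fin 2) : pe π x = x ∘ π := rfl

lemma prodOp_perm (a : Fin n → Matrix (Fin 2) (Fin 2) ℂ) (π : Equiv.Perm (Fin n)) :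
    (prodOp a).submatrix (pe π) (pe π) = prodOp (fun i => a (π.symm i)) := by
  ext x y
  simp only [prodOp, Matrix.submatrix_apply, Matrix.of_apply, pe_apply, Function.comp_apply]
  rw [← Equiv.prod_comp π.symm]
  simp

/-- The bilinear functional `Tr[(A ⊗ B) SWAP_ω]`. -/
def F (w : Fin n → Bool) (A B : Matrix (Fin n → Fin 2) (Fin n → Fin 2) ℂ) : ℂ :=
  ∑ x : Fin n → Fin 2, ∑ y : Fin n → Fin 2,
    A x (fun i => bif w i then y i else x i) * B y (fun i => bif w i then x i else y i)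

lemma F_prodOp (w : Fin n → Bool) (a b : Fin n → Matrix (Fin 2) (Fin 2) ℂ) :
    F w (prodOp a) (prodOp b) =
      ∏ i, bif w i then (a i * b i).trace else (a i).trace * (b i).trace := by
  have h : ∀ i, (bif w i then (a i * b i).trace else (a i).trace * (b i).trace) =
      ∑ s : Fin 2, ∑ t : Fin 2, a i s (bif w i then t else s) * b i t (bif w i then s else t) := by
    intro i
    cases w i
    · simp only [Matrix.trace, Matrix.diag, cond_false]
      rw [Finset.sum_mul_sum]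
    · simp only [Matrix.trace, Matrix.diag, cond_true, Matrix.mul_apply]
  simp only [h]
  rw [Finset.prod_univ_sum]
  simp only [Finset.prod_univ_sum, Fintype.piFinset_univ]
  simp only [F, prodOp, Matrix.of_apply, Finset.prod_mul_distrib]

lemma F_sum_left {ι : Type*} (s : Finset ι) (w : Fin n → Bool)
    (A : ι → Matrix (Fin n → Fin 2) (Fin n → Fin 2) ℂ)
    (B : Matrix (Fin n → Fin 2) (Fin n → Fin 2) ℂ) :
    F w (∑ k ∈ s, A k) B = ∑ k ∈ s, F w (A k) B := by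
  simp only [F, Matrix.sum_apply, Finset.sum_mul]
  exact (Finset.sum_congr rfl fun x _ => Finset.sum_comm).trans Finset.sum_comm

lemma F_sum_right {ι : Type*} (s : Finset ι) (w : Fin n → Bool)
    (A : Matrix (Fin n → Fin 2) (Fin n → Fin 2) ℂ)
    (B : ι → Matrix (Fin n → Fin 2) (Fin n → Fin 2) ℂ) :
    F w A (∑ k ∈ s, B k) = ∑ k ∈ s, F w A (B k) := by
  simp only [F, Matrix.sum_apply, Finset.mul_sum]
  exact (Finset.sum_congr rfl fun x _ => Finset.sum_comm).trans Finset.sum_comm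

lemma F_smul_smul (w : Fin n → Bool) (c d : ℂ) (A B : Matrix (Fin n → Fin 2) (Fin n → Fin 2) ℂ) :
    F w (c • A) (d • B) = c * d * F w A B := by
  simp only [F, Matrix.smul_apply, smul_eq_mul, Finset.mul_sum]
  refine Finset.sum_congr rfl fun x _ => Finset.sum_congr rfl fun y _ => ?_
  ring

/-- product of Pauli labels -/
def mulp : Pauli → Pauli → Pauli
  | .I, q => q
  | .X, .I => .X
  | .X, .X => .I
  | .X, .Y => .Z
  | .X, .Z => .Y
  | .Y, .I => .Y
  | .Y, .X => .Z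
  | .Y, .Y => .I
  | .Y, .Z => .X
  | .Z, .I => .Z
  | .Z, .X => .Y
  | .Z, .Y => .X
  | .Z, .Z => .I

/-- phases of products of Pauli matrices, as exponents of `i` -/
def ph : Pauli → Pauli → ℕ
  | .I, _ => 0
  | .X, .I => 0
  | .X, .X => 0
  | .X, .Y => 1
  | .X, .Z => 3
  | .Y, .I => 0
  | .Y, .X => 3
  | .Y, .Y => 0
  | .Y, .Z => 1
  | .Z, .I => 0
  | .Z, .X => 1
  | .Z, .Y => 3
  | .Z, .Z => 0

lemma I3 : Complex.I ^ 3 = -Complex.I := by
  rw [pow_succ, Complex.I_sq]; ring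

lemma mat_mul (p q : Pauli) : p.mat * q.mat = Complex.I ^ (ph p q) • (mulp p q).mat := by
  cases p <;> cases q <;>
    (ext i j; fin_cases i <;> fin_cases j <;>
      simp [Pauli.mat, ph, mulp, Matrix.mul_apply, Fin.sum_univ_two, Matrix.one_apply, I3])

lemma mat_herm (p : Pauli) : (p.mat)ᴴ = p.mat := by
  cases p <;>
    (ext i j; fin_cases i <;> fin_cases j <;>
      simp [Pauli.mat, Matrix.conjTranspose_apply, Matrix.one_apply])

lemma str_mul (s t : Fin n → Pauli) :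
    str s * str t = Complex.I ^ (∑ i, ph (s i) (t i)) • str (fun i => mulp (s i) (t i)) := by
  rw [str, str, prodOp_mul]
  ext x y
  simp only [prodOp, str, Matrix.of_apply, Matrix.smul_apply, mat_mul, smul_eq_mul,
    Finset.prod_mul_distrib, Finset.prod_pow_eq_pow_sum]

lemma str_herm (s : Fin n → Pauli) : (str s)ᴴ = str s := by
  rw [str, prodOp_conjTranspose]
  congr 1
  funext i
  exact mat_herm _

/-- scalar `2 δ_{pq}` -/
def d2 (p q : Pauli) : ℤ := if p = q then 2 else 0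

lemma trace_mat (p : Pauli) : p.mat.trace = (d2 p .I : ℤ) := by
  cases p <;> simp [Pauli.mat, d2, Matrix.trace, Fin.sum_univ_two]

lemma trace_mat_mul (p q : Pauli) : (p.mat * q.mat).trace = (d2 p q : ℤ) := by
  rw [mat_mul, Matrix.trace_smul, trace_mat]
  cases p <;> cases q <;> simp [d2, ph, mulp]

/-- the local factor -/
def fac (b : Bool) (p q : Pauli) : ℤ := bif b then d2 p q else d2 p .I * d2 q .I

/-- the numerical invariant -/
def N (e : Fin 8 → Fin n → Pauli) (c : Fin 8 → ℤ) (w : Fin n → Bool) : ℤ :=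
  ∑ k, ∑ l, c k * c l * ∏ i, fac (w i) (e k i) (e l i)

/-- xor with `2^j` -/
def xr : Fin 3 → Fin 8 → Fin 8 :=
  ![![1, 0, 3, 2, 5, 4, 7, 6], ![2, 3, 0, 1, 6, 7, 4, 5], ![4, 5, 6, 7, 0, 1, 2, 3]]

/-- `e`, `c` is the table of the stabilizer group generated by `g` -/
def Valid (g : Fin 3 → Fin n → Pauli) (e : Fin 8 → Fin n → Pauli) (c : Fin 8 → ℤ) : Prop :=
  (∀ i, e 0 i = .I) ∧ c 0 = 1 ∧ ∀ j l, (∀ i, mulp (g j i) (e l i) = e (xr j l) i) ∧
    (((∑ i, ph (g j i) (e l i)) % 4 = 0 ∧ c (xr j l) = c l) ∨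
      ((∑ i, ph (g j i) (e l i)) % 4 = 2 ∧ c (xr j l) = - c l))

/-- the projector -/
noncomputable def Pr (e : Fin 8 → Fin n → Pauli) (c : Fin 8 → ℤ) :
    Matrix (Fin n → Fin 2) (Fin n → Fin 2) ℂ := ∑ k, ((c k : ℂ) / 8) • str (e k)

lemma step {g : Fin 3 → Fin n → Pauli} {e : Fin 8 → Fin n → Pauli} {c : Fin 8 → ℤ}
    (h : Valid g e c) (j : Fin 3) (l : Fin 8) :
    str (g j) * ((c l : ℂ) • str (e l)) = (c (xr j l) : ℂ) • str (e (xr j l)) := by
  obtain ⟨h1, h2⟩ := h.2.2 j l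
  rw [mul_smul_comm, str_mul, funext h1, smul_smul]
  congr 1
  have hI : ∀ m : ℕ, Complex.I ^ m = Complex.I ^ (m % 4) := by
    intro m
    conv_lhs => rw [← Nat.div_add_mod m 4, pow_add, pow_mul, Complex.I_pow_four, one_pow, one_mul]
  rw [hI]
  rcases h2 with ⟨h2, h3⟩ | ⟨h2, h3⟩
  · rw [h2, h3]; simp
  · rw [h2, h3]; simp

lemma str_e0 {g : Fin 3 → Fin n → Pauli} {e : Fin 8 → Fin n → Pauli} {c : Fin 8 → ℤ}
    (h : Valid g e c) : (c 0 : ℂ) • str (e 0) = 1 := by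
  rw [h.2.1, str]
  simp only [h.1]
  rw [← prodOp_one]
  simp [Pauli.mat]

lemma fixes {g : Fin 3 → Fin n → Pauli} {e : Fin 8 → Fin n → Pauli} {c : Fin 8 → ℤ}
    (h : Valid g e c) {ψ : (Fin n → Fin 2) → ℂ} (hψ : ψ ∈ codespace g) (l : Fin 8) :
    ((c l : ℂ) • str (e l)) *ᵥ ψ = ψ := by
  have h0 : ((c 0 : ℂ) • str (e 0)) *ᵥ ψ = ψ := by rw [str_e0 h, Matrix.one_mulVec]
  have hs : ∀ j l, ((c l : ℂ) • str (e l)) *ᵥ ψ = ψ →
      ((c (xr j l) : ℂ) • str (e (xr j l))) *ᵥ ψ = ψ := by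
    intro j l hl
    rw [← step h j l, ← Matrix.mulVec_mulVec, hl]
    exact hψ j
  have h1 := hs 0 0 h0
  have h2 := hs 1 0 h0
  have h3 := hs 0 2 h2
  have h4 := hs 2 0 h0
  have h5 := hs 0 4 h4
  have h6 := hs 1 4 h4
  have h7 := hs 0 6 h6
  fin_cases l
  · exact h0
  · exact h1
  · exact h2
  · exact h3
  · exact h4
  · exact h5
  · exact h6
  · exact h7

lemma Pr_fix {g : Fin 3 → Fin n → Pauli} {e : Fin 8 → Fin n → Pauli} {c : Fin 8 → ℤ}
    (h : Valid g e c) {ψ : (Fin n → Fin 2) → ℂ} (hψ : ψ ∈ codespace g) : Pr e c *ᵥ ψ = ψ := by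
  have : Pr e c = (1 / 8 : ℂ) • ∑ k, (c k : ℂ) • str (e k) := by
    rw [Pr, Finset.smul_sum]
    refine Finset.sum_congr rfl fun k _ => ?_
    rw [smul_smul]; congr 1; ring
  rw [this, Matrix.smul_mulVec, Matrix.sum_mulVec]
  simp only [fixes h hψ]
  ext x
  simp

lemma xr_inv (j : Fin 3) : Function.Involutive (xr j) := by
  intro l
  revert j l
  decide

lemma Pr_mem {g : Fin 3 → Fin n → Pauli} {e : Fin 8 → Fin n → Pauli} {c : Fin 8 → ℤ}
    (h : Valid g e c) (ψ : (Fin n → Fin 2) → ℂ) : Pr e c *ᵥ ψ ∈ codespace g := by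
  intro j
  have : Pr e c = (1 / 8 : ℂ) • ∑ k, (c k : ℂ) • str (e k) := by
    rw [Pr, Finset.smul_sum]
    refine Finset.sum_congr rfl fun k _ => ?_
    rw [smul_smul]; congr 1; ring
  rw [Matrix.mulVec_mulVec]
  congr 1
  rw [this, mul_smul_comm, Finset.mul_sum]
  simp only [step h]
  congr 1
  exact Equiv.sum_comp (xr_inv j).toPerm (fun k => (c k : ℂ) • str (e k))

lemma Pr_herm (e : Fin 8 → Fin n → Pauli) (c : Fin 8 → ℤ) : (Pr e c)ᴴ = Pr e c := by
  rw [Pr, Matrix.conjTranspose_sum]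
  refine Finset.sum_congr rfl fun k _ => ?_
  rw [Matrix.conjTranspose_smul, str_herm]
  congr 1
  simp

/-- transformed projector -/
noncomputable def Pr' (U : Fin n → Matrix (Fin 2) (Fin 2) ℂ) (π : Equiv.Perm (Fin n))
    (P : Matrix (Fin n → Fin 2) (Fin n → Fin 2) ℂ) : Matrix (Fin n → Fin 2) (Fin n → Fin 2) ℂ :=
  prodOp U * P.submatrix (pe π) (pe π) * (prodOp U)ᴴ

lemma Pr'_mulVec (U : Fin n → Matrix (Fin 2) (Fin 2) ℂ) (π : Equiv.Perm (Fin n))
    (P : Matrix (Fin n → Fin 2) (Fin n → Fin 2) ℂ) (ψ : (Fin n → Fin 2) → ℂ) :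
    Pr' U π P *ᵥ ψ = localMap U π (P *ᵥ (((prodOp U)ᴴ *ᵥ ψ) ∘ (pe π).symm)) := by
  rw [Pr', ← Matrix.mulVec_mulVec, ← Matrix.mulVec_mulVec, Matrix.submatrix_mulVec_equiv]
  rfl

lemma localMap_inv {U : Fin n → Matrix (Fin 2) (Fin 2) ℂ}
    (hU : ∀ i, U i ∈ Matrix.unitaryGroup (Fin 2) ℂ) (π : Equiv.Perm (Fin n))
    (φ : (Fin n → Fin 2) → ℂ) : ((prodOp U)ᴴ *ᵥ (localMap U π φ)) ∘ (pe π).symm = φ := by
  rw [localMap, Matrix.mulVec_mulVec, unitary_prod hU, Matrix.one_mulVec]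
  funext x
  change φ (pe π ((pe π).symm x)) = φ x
  rw [Equiv.apply_symm_apply]

lemma Pr'_herm (U : Fin n → Matrix (Fin 2) (Fin 2) ℂ) (π : Equiv.Perm (Fin n))
    {P : Matrix (Fin n → Fin 2) (Fin n → Fin 2) ℂ} (hP : Pᴴ = P) : (Pr' U π P)ᴴ = Pr' U π P := by
  rw [Pr', Matrix.conjTranspose_mul, Matrix.conjTranspose_mul, Matrix.conjTranspose_conjTranspose,
    Matrix.conjTranspose_submatrix, hP, mul_assoc]

lemma matrix_ext_mulVec {A B : Matrix (Fin n → Fin 2) (Fin n → Fin 2) ℂ}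
    (h : ∀ v, A *ᵥ v = B *ᵥ v) : A = B := by
  apply Matrix.mulVec_injective
  funext v
  exact h v

lemma Pr'_eq {gA gB : Fin 3 → Fin n → Pauli} {eA eB : Fin 8 → Fin n → Pauli} {cA cB : Fin 8 → ℤ}
    (hA : Valid gA eA cA) (hB : Valid gB eB cB) {U : Fin n → Matrix (Fin 2) (Fin 2) ℂ}
    (hU : ∀ i, U i ∈ Matrix.unitaryGroup (Fin 2) ℂ) {π : Equiv.Perm (Fin n)}
    (h : localMap U π '' codespace gA = codespace gB) : Pr' U π (Pr eA cA) = Pr eB cB := by
  have h1 : Pr eB cB * Pr' U π (Pr eA cA) = Pr' U π (Pr eA cA) := by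
    apply matrix_ext_mulVec
    intro v
    rw [← Matrix.mulVec_mulVec]
    apply Pr_fix hB
    rw [← h, Pr'_mulVec]
    exact ⟨_, Pr_mem hA _, rfl⟩
  have h2 : Pr' U π (Pr eA cA) * Pr eB cB = Pr eB cB := by
    apply matrix_ext_mulVec
    intro v
    rw [← Matrix.mulVec_mulVec]
    have hv : Pr eB cB *ᵥ v ∈ codespace gB := Pr_mem hB v
    rw [← h] at hv
    obtain ⟨φ, hφ, hφ'⟩ := hv
    rw [← hφ', Pr'_mulVec, localMap_inv hU, Pr_fix hA hφ]
  have h3 := congrArg Matrix.conjTranspose h1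
  rw [Matrix.conjTranspose_mul, Pr'_herm U π (Pr_herm eA cA), Pr_herm, h2] at h3
  exact h3.symm

lemma Pr'_sum (U : Fin n → Matrix (Fin 2) (Fin 2) ℂ) (π : Equiv.Perm (Fin n))
    (e : Fin 8 → Fin n → Pauli) (c : Fin 8 → ℤ) :
    Pr' U π (Pr e c) =
      ∑ k, ((c k : ℂ) / 8) • prodOp (fun i => U i * (e k (π.symm i)).mat * (U i)ᴴ) := by
  rw [Pr', Pr]
  have : (∑ k, ((c k : ℂ) / 8) • str (e k)).submatrix (pe π) (pe π) =
      ∑ k, ((c k : ℂ) / 8) • prodOp (fun i => (e k (π.symm i)).mat) := by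
    ext x y
    simp only [Matrix.submatrix_apply, Matrix.sum_apply, Matrix.smul_apply]
    refine Finset.sum_congr rfl fun k _ => ?_
    congr 1
    exact congrFun (congrFun (prodOp_perm (fun i => (e k i).mat) π) x) y
  rw [this, Finset.mul_sum, Finset.sum_mul]
  refine Finset.sum_congr rfl fun k _ => ?_
  rw [mul_smul_comm, smul_mul_assoc, prodOp_mul, prodOp_conjTranspose, prodOp_mul]

lemma F_sum (w : Fin n → Bool) (c : Fin 8 → ℤ) (a : Fin 8 → Fin n → Matrix (Fin 2) (Fin 2) ℂ)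
    (q : Fin 8 → Fin n → Pauli)
    (h1 : ∀ k i, (a k i).trace = (q k i).mat.trace)
    (h2 : ∀ k l i, (a k i * a l i).trace = ((q k i).mat * (q l i).mat).trace) :
    F w (∑ k, ((c k : ℂ) / 8) • prodOp (a k)) (∑ k, ((c k : ℂ) / 8) • prodOp (a k)) =
      (N q c w : ℂ) / 64 := by
  rw [F_sum_left]
  simp only [F_sum_right, F_smul_smul, F_prodOp]
  rw [N]
  push_cast
  rw [Finset.sum_div]
  refine Finset.sum_congr rfl fun k _ => ?_
  rw [Finset.sum_div]
  refine Finset.sum_congr rfl fun l _ => ?_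
  have : ∀ i, (bif w i then (a k i * a l i).trace else (a k i).trace * (a l i).trace) =
      (fac (w i) (q k i) (q l i) : ℂ) := by
    intro i
    rw [h1, h1, h2, trace_mat_mul, trace_mat, trace_mat, fac]
    cases w i <;> simp
  simp only [this]
  ring

theorem invariant {gA gB : Fin 3 → Fin n → Pauli} {eA eB : Fin 8 → Fin n → Pauli}
    {cA cB : Fin 8 → ℤ} (hA : Valid gA eA cA) (hB : Valid gB eB cB)
    (h : LUEquivalent (codespace gA) (codespace gB)) :
    ∃ π : Equiv.Perm (Fin n), ∀ w : Fin n → Bool, N eA cA (w ∘ π) = N eB cB w := by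
  obtain ⟨U, π, hU, h⟩ := h
  refine ⟨π, fun w => ?_⟩
  have e := Pr'_eq hA hB hU h
  have hUU : ∀ i, (U i)ᴴ * U i = 1 := fun i => Matrix.mem_unitaryGroup_iff'.mp (hU i)
  have f1 : F w (Pr' U π (Pr eA cA)) (Pr' U π (Pr eA cA)) =
      (N (fun k i => eA k (π.symm i)) cA w : ℂ) / 64 := by
    rw [Pr'_sum]
    apply F_sum
    · intro k i
      rw [Matrix.trace_mul_comm, ← mul_assoc, hUU, one_mul]
    · intro k l i
      have : U i * (eA k (π.symm i)).mat * (U i)ᴴ * (U i * (eA l (π.symm i)).mat * (U i)ᴴ) =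
          U i * ((eA k (π.symm i)).mat * (((U i)ᴴ * U i) * (eA l (π.symm i)).mat)) * (U i)ᴴ := by
        simp only [mul_assoc]
      rw [this, hUU, one_mul, Matrix.trace_mul_comm, ← mul_assoc, hUU, one_mul]
  have f2 : F w (Pr eB cB) (Pr eB cB) = (N eB cB w : ℂ) / 64 := by
    rw [Pr]
    exact F_sum w cB (fun k i => (eB k i).mat) eB (fun _ _ => rfl) (fun _ _ _ => rfl)
  rw [e, f2] at f1
  have f3 : (N (fun k i => eA k (π.symm i)) cA w : ℂ) = (N eB cB w : ℂ) := by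
    exact ((div_left_inj' (by norm_num)).mp f1).symm
  have f4 : N (fun k i => eA k (π.symm i)) cA w = N eB cB w := by exact_mod_cast f3
  rw [← f4, N, N]
  refine Finset.sum_congr rfl fun k _ => Finset.sum_congr rfl fun l _ => ?_
  congr 1
  simpa using Equiv.prod_comp π (fun i => fac (w i) (eA k (π.symm i)) (eA l (π.symm i)))

end general

section tables

open Pauli

/-- elements of `S_A` -/
def eA : Fin 8 → Fin 5 → Pauli :=
  ![![I, I, I, I, I], ![Z, Z, Z, Z, I], ![X, X, I, I, X], ![Y, Y, Z, Z, X],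
    ![I, I, X, X, X], ![Z, Z, Y, Y, X], ![X, X, X, X, I], ![Y, Y, Y, Y, I]]
/-- signs for `S_A` -/
def cA : Fin 8 → ℤ := ![1, 1, 1, -1, 1, -1, 1, 1]

/-- elements of `S_B` -/
def eB : Fin 8 → Fin 5 → Pauli :=
  ![![I, I, I, I, I], ![Z, Z, I, Z, X], ![X, I, Z, X, I], ![Y, Z, Z, Y, X],
    ![I, X, X, Y, I], ![Z, Y, X, X, X], ![X, X, Y, Z, I], ![Y, Y, Y, I, X]]
/-- signs for `S_B` -/
def cB : Fin 8 → ℤ := ![1, 1, 1, -1, 1, 1, -1, 1]

instance (n : ℕ) (g : Fin 3 → Fin n → Pauli) (e : Fin 8 → Fin n → Pauli) (c : Fin 8 → ℤ) :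
    Decidable (Valid g e c) := by
  unfold Valid; infer_instance

/-- elements of `S_+` -/
def eP : Fin 8 → Fin 6 → Pauli :=
  ![![I, I, I, I, I, I], ![X, X, I, I, X, X], ![I, I, X, X, X, X], ![X, X, X, X, I, I],
    ![Z, Z, Z, Z, I, X], ![Y, Y, Z, Z, X, I], ![Z, Z, Y, Y, X, I], ![Y, Y, Y, Y, I, X]]
/-- signs for `S_+` -/
def cP : Fin 8 → ℤ := ![1, 1, 1, 1, 1, -1, -1, 1]

/-- elements of `S_-` -/
def eM : Fin 8 → Fin 6 → Pauli :=
  ![![I, I, I, I, I, I], ![X, X, Z, X, I, I], ![Z, Z, X, Y, I, I], ![Y, Y, Y, Z, I, I],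
    ![I, Z, Z, Z, X, X], ![X, Y, I, Y, X, X], ![Z, I, Y, X, X, X], ![Y, X, X, I, X, X]]
/-- signs for `S_-` -/
def cM : Fin 8 → ℤ := ![1, 1, 1, 1, 1, -1, 1, -1]

lemma validA : Valid SA eA cA := by decide +kernel
lemma validB : Valid SB eB cB := by decide +kernel
lemma validP : Valid Splus eP cP := by decide +kernel
lemma validM : Valid Sminus eM cM := by decide +kernel

/-- weight of a subset -/
def card {n : ℕ} (w : Fin n → Bool) : ℕ := ∑ i, bif w i then 1 else 0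

lemma card_comp {n : ℕ} (w : Fin n → Bool) (π : Equiv.Perm (Fin n)) : card (w ∘ π) = card w := by
  exact Equiv.sum_comp π (fun i => bif w i then 1 else 0)

lemma decM : ∀ a b c d e f : Bool, card ![a, b, c, d, e, f] = 4 →
    N eM cM ![a, b, c, d, e, f] ≠ 512 := by decide +kernel

lemma decP : N eP cP ![true, true, false, false, true, true] = 512 := by decide +kernel

lemma decA4 : N eA cA ![true, true, true, true, false] = 256 := by decide +kernel
lemma decA3 : N eA cA ![true, true, false, false, true] = 256 := by decide +kernel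
lemma decB4 : ∀ a b c d e : Bool, card ![a, b, c, d, e] = 4 →
    N eB cB ![a, b, c, d, e] = 256 → e = false := by decide +kernel
lemma decB3 : ∀ a b c d e : Bool, card ![a, b, c, d, e] = 3 →
    N eB cB ![a, b, c, d, e] = 256 → e = false := by decide +kernel

end tables

/-- Both pairs of codes of MP_7af562 are locally unitarily inequivalent. -/
theorem result : ¬ LUEquivalent (codespace SA) (codespace SB) ∧
    ¬ LUEquivalent (codespace Splus) (codespace Sminus) := by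
  constructor
  · intro h
    obtain ⟨π, hπ⟩ := invariant validA validB h
    set u : Fin 5 → Bool := ![true, true, true, true, false] with hu
    set v : Fin 5 → Bool := ![true, true, false, false, true] with hv
    have h1 := hπ (u ∘ π.symm)
    have h2 := hπ (v ∘ π.symm)
    have e1 : (u ∘ π.symm) ∘ π = u := by funext i; simp
    have e2 : (v ∘ π.symm) ∘ π = v := by funext i; simp
    rw [e1, decA4] at h1
    rw [e2, decA3] at h2
    have l5 : ∀ w : Fin 5 → Bool, w = ![w 0, w 1, w 2, w 3, w 4] := by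
      intro w; funext i; fin_cases i <;> rfl
    have c1 : card (u ∘ π.symm) = 4 := by rw [card_comp, hu]; decide
    have c2 : card (v ∘ π.symm) = 3 := by rw [card_comp, hv]; decide
    have g1 := l5 (u ∘ π.symm)
    have g2 := l5 (v ∘ π.symm)
    rw [g1] at h1 c1
    rw [g2] at h2 c2
    have k1 := decB4 _ _ _ _ _ c1 h1.symm
    have k2 := decB3 _ _ _ _ _ c2 h2.symm
    simp only [Function.comp_apply] at k1 k2
    generalize π.symm 4 = z at k1 k2
    rw [hu] at k1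
    rw [hv] at k2
    revert k1 k2
    revert z
    decide
  · intro h
    obtain ⟨π, hπ⟩ := invariant validP validM h
    set u : Fin 6 → Bool := ![true, true, false, false, true, true] with hu
    have h1 := hπ (u ∘ π.symm)
    have e1 : (u ∘ π.symm) ∘ π = u := by funext i; simp
    rw [e1, decP] at h1
    have l6 : ∀ w : Fin 6 → Bool, w = ![w 0, w 1, w 2, w 3, w 4, w 5] := by
      intro w; funext i; fin_cases i <;> rfl
    have c1 : card (u ∘ π.symm) = 4 := by rw [card_comp, hu]; decide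
    have g1 := l6 (u ∘ π.symm)
    rw [g1] at h1 c1
    exact decM _ _ _ _ _ _ c1 h1.symm

end Pool.Agent.Results.MP_7af562_mp.NotLUEquivalent
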